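import Pool.Agent.Helper64.HZ.GRP

/-!
# GR1: the first copy of the graph of points satisfies the graph hypotheses
-/

set_option autoImplicit false

open MulAction Pointwise

namespace Pool.Agent.Helper93.HZ

open Ctx

section ctx

variable {G : Type} [Group G] (X : Ctx G)

theorem gr1_arr_smul (g : G) {u w : X.U} : X.D.arr (g • u) (g • w) ↔ X.D.arr u w := by
  constructor
  · intro h
    have := X.D.arr_smul g⁻¹ _ _ h
    simpa using this
  · exact X.D.arr_smul g u w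

theorem gr1_Y1_smul (g : G) {b : Band G X} (hb : b ∈ X.Y1) : g • b ∈ X.Y1 := by
  refine ⟨gr_BN_smul X g hb.1, ?_⟩
  show b.o = true ↔ X.D.arr (g • b.w) (X.P.N (g • b.y) (g • b.w))
  rw [X.P.eN, gr1_arr_smul X g]
  exact hb.2

theorem gr1_NP1_iff (n : X.NP) : n ∈ X.NP1 ↔ n ∈ X.NPs ∧ X.D.arr (gr_loc X n).1 (gr_loc X n).2 := by
  rcases n with ⟨x, y, u, w⟩ | ⟨C, u, w⟩
  · exact Iff.rfl
  · exact Iff.rfl

theorem gr1_band_arr {b : Band G X} (hb : b ∈ X.Y1) {n : X.NP}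
    (h : X.sP b = some n ∨ X.tP b = some n) : X.D.arr (gr_loc X n).1 (gr_loc X n).2 := by
  have hc := (gr_BN_cross X hb.1).1.1
  have hY := hb.2
  obtain ⟨x, y, z, w, o⟩ := b
  cases o
  · have h1 : ¬ X.D.arr w (X.P.N y w) := fun h => absurd (hY.2 h) (by simp)
    have h2 : X.D.arr (X.P.N y w) w := ((X.D.adj_iff _ _).1 hc).resolve_left h1
    rcases h with h | h
    · rw [gr_ptN_loc X (x := y) (y := x) (u := X.P.N y w) (w := w) h]
      exact h2
    · rw [gr_ptN_loc X (x := z) (y := x) (u := X.P.N y w) (w := w) h]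
      exact h2
  · have h2 : X.D.arr w (X.P.N y w) := hY.1 rfl
    rcases h with h | h
    · rw [gr_ptN_loc X (x := x) (y := y) (u := w) (w := X.P.N y w) h]
      exact h2
    · rw [gr_ptN_loc X (x := x) (y := z) (u := w) (w := X.P.N y w) h]
      exact h2

end ctx

theorem st_GR1 (hTFC : ST_TFC) (hTFD : ST_TFD) (hINF : ST_INF) (hCLU : ST_CLU)
    (hHON : ST_HON) : ST_GR1 := by
  intro G _ X
  have hsub : ∀ n ∈ X.NP1, n ∈ X.NPs := fun n hn => hn.1
  refine ⟨fun g n hn => ?_, fun g b hb => gr1_Y1_smul X g hb,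
    fun g n hn h => gr_NPs_free X g (hsub n hn) h, fun g b hb h => gr_BN_free X g hb.1 h,
    gr_finOrb_mono hsub (gr_NPs_fin X hHON hTFC hCLU),
    gr_finOrb_mono (fun b hb => hb.1) (gr_BN_fin X hHON),
    fun b hb n h => (gr1_NP1_iff X n).2 ⟨(grp_sP_mem X hHON hTFD hCLU hb.1).1 n h,
      gr1_band_arr X hb (Or.inl h)⟩,
    fun b hb n h => (gr1_NP1_iff X n).2 ⟨(grp_sP_mem X hHON hTFD hCLU hb.1).2 n h,
      gr1_band_arr X hb (Or.inr h)⟩,
    fun g b hb => (grp_sP_smul X hTFD hCLU g hb.1).1,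
    fun g b hb => (grp_sP_smul X hTFD hCLU g hb.1).2, ?_⟩
  · rw [gr1_NP1_iff] at hn ⊢
    refine ⟨gr_NPs_smul X hCLU g hn.1, ?_⟩
    rw [gr_loc_smul]
    exact X.D.arr_smul g _ _ hn.2
  · refine gr_triv (fun g n hn h => gr_NPs_free X g (hsub n hn) h) (gr_loc X) (gr_loc_smul X)
      (fun b _ p q h1 h2 => grp_loc X h1 h2) (fun n hn g hg m hm hgm => ?_)
    have h1 : g • (gr_loc X n).1 = (gr_loc X n).1 := congrArg Prod.fst hg
    have h2 : g • (gr_loc X n).2 = (gr_loc X n).2 := congrArg Prod.snd hg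
    exact gr_edge_tf X hINF (gr_NPs_adj X (hsub n hn)) h1 h2 hm hgm

end Pool.Agent.Helper93.HZ
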