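import Pool.Agent.Helper64.HZ.GrLib3

/-!
# GRP: the graph of points satisfies the graph hypotheses
-/

set_option autoImplicit false

open MulAction Pointwise

namespace Pool.Agent.Helper93.HZ

open Ctx

section ctx

variable {G : Type} [Group G] (X : Ctx G)

theorem grp_sP_smul (hTFD : ST_TFD) (hCLU : ST_CLU) (g : G) {b : Band G X} (hb : b ∈ X.BN) :
    X.sP (g • b) = (X.sP b).map (g • ·) ∧ X.tP (g • b) = (X.tP b).map (g • ·) := by
  have ha := gr_tri_adj3 X hb.1
  have ha' := X.K.symm _ _ ha.1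
  have ha'' := X.K.symm _ _ ha.2.1
  obtain ⟨x, y, z, w, o⟩ := b
  have e : X.P.N (g • y) (g • w) = g • X.P.N y w := X.P.eN g y w
  have hs : g • (⟨x, y, z, w, o⟩ : Band G X) = ⟨g • x, g • y, g • z, g • w, o⟩ := rfl
  rw [hs]
  cases o
  · constructor
    · show X.ptN (g • y) (g • x) (X.P.N (g • y) (g • w)) (g • w) =
        (X.ptN y x (X.P.N y w) w).map (g • ·)
      rw [e]
      exact gr_ptN_smul X hTFD hCLU g ha'
    · show X.ptN (g • z) (g • x) (X.P.N (g • y) (g • w)) (g • w) =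
        (X.ptN z x (X.P.N y w) w).map (g • ·)
      rw [e]
      exact gr_ptN_smul X hTFD hCLU g ha''
  · constructor
    · show X.ptN (g • x) (g • y) (g • w) (X.P.N (g • y) (g • w)) =
        (X.ptN x y w (X.P.N y w)).map (g • ·)
      rw [e]
      exact gr_ptN_smul X hTFD hCLU g ha.1
    · show X.ptN (g • x) (g • z) (g • w) (X.P.N (g • y) (g • w)) =
        (X.ptN x z w (X.P.N y w)).map (g • ·)
      rw [e]
      exact gr_ptN_smul X hTFD hCLU g ha.2.1

theorem grp_sP_mem (hHON : ST_HON) (hTFD : ST_TFD) (hCLU : ST_CLU) {b : Band G X}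
    (hb : b ∈ X.BN) : (∀ n, X.sP b = some n → n ∈ X.NPs) ∧
      (∀ n, X.tP b = some n → n ∈ X.NPs) := by
  have ha := gr_tri_adj3 X hb.1
  have ha' := X.K.symm _ _ ha.1
  have ha'' := X.K.symm _ _ ha.2.1
  have hc := gr_BN_cross X hb
  obtain ⟨x, y, z, w, o⟩ := b
  cases o
  · exact ⟨fun n h => gr_ptN_mem X hHON hTFD hCLU ha' (gr_cross_symm X hc.1) h,
      fun n h => gr_ptN_mem X hHON hTFD hCLU ha'' (gr_cross_symm X hc.2) h⟩
  · exact ⟨fun n h => gr_ptN_mem X hHON hTFD hCLU ha.1 hc.1 h,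
      fun n h => gr_ptN_mem X hHON hTFD hCLU ha.2.1 hc.2 h⟩

theorem grp_loc {b : Band G X} {p q : X.NP} (h1 : X.sP b = some p) (h2 : X.tP b = some q) :
    gr_loc X p = gr_loc X q := by
  obtain ⟨x, y, z, w, o⟩ := b
  cases o
  · rw [gr_ptN_loc X (x := y) (y := x) (u := X.P.N y w) (w := w) h1,
      gr_ptN_loc X (x := z) (y := x) (u := X.P.N y w) (w := w) h2]
  · rw [gr_ptN_loc X (x := x) (y := y) (u := w) (w := X.P.N y w) h1,
      gr_ptN_loc X (x := x) (y := z) (u := w) (w := X.P.N y w) h2]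

end ctx

theorem st_GRP (hTFC : ST_TFC) (hTFD : ST_TFD) (hINF : ST_INF) (hCLU : ST_CLU)
    (hHON : ST_HON) : ST_GRP := by
  intro G _ X
  refine ⟨fun g n hn => gr_NPs_smul X hCLU g hn, fun g b hb => gr_BN_smul X g hb,
    fun g n hn h => gr_NPs_free X g hn h, fun g b hb h => gr_BN_free X g hb h,
    gr_NPs_fin X hHON hTFC hCLU, gr_BN_fin X hHON,
    fun b hb n h => (grp_sP_mem X hHON hTFD hCLU hb).1 n h,
    fun b hb n h => (grp_sP_mem X hHON hTFD hCLU hb).2 n h,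
    fun g b hb => (grp_sP_smul X hTFD hCLU g hb).1,
    fun g b hb => (grp_sP_smul X hTFD hCLU g hb).2, ?_⟩
  refine gr_triv (fun g n hn h => gr_NPs_free X g hn h) (gr_loc X) (gr_loc_smul X)
    (fun b _ p q h1 h2 => grp_loc X h1 h2) (fun n hn g hg m hm hgm => ?_)
  have h1 : g • (gr_loc X n).1 = (gr_loc X n).1 := congrArg Prod.fst hg
  have h2 : g • (gr_loc X n).2 = (gr_loc X n).2 := congrArg Prod.snd hg
  exact gr_edge_tf X hINF (gr_NPs_adj X hn) h1 h2 hm hgm

end Pool.Agent.Helper93.HZ
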