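import Pool.Agent.Helper64.HZ.GR1

/-!
# GRQ: the split graph satisfies the graph hypotheses
-/

set_option autoImplicit false

open MulAction Pointwise

namespace Pool.Agent.Helper93.HZ

open Ctx

section ctx

variable {G : Type} [Group G] (X : Ctx G)

theorem grq_spN_smul (hCLU : ST_CLU) (g : G) {x y : X.V} {u w : X.U} (ha : X.K.adj x y) :
    X.spN (g • x) (g • y) (g • u) (g • w) = (X.spN x y u w).map (g • ·) := by
  classical
  unfold Ctx.spN
  by_cases h1 : Fr X.K x y ∧ X.Hon x y u ∧ X.Hon x y w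
  · have h1' : Fr X.K (g • x) (g • y) ∧ X.Hon (g • x) (g • y) (g • u) ∧
        X.Hon (g • x) (g • y) (g • w) :=
      ⟨Fr_smul g h1.1, (gr_Hon_smul X g ha h1.1).2 h1.2.1, (gr_Hon_smul X g ha h1.1).2 h1.2.2⟩
    rw [if_pos h1, if_pos h1']
    rfl
  · have h1' : ¬ (Fr X.K (g • x) (g • y) ∧ X.Hon (g • x) (g • y) (g • u) ∧
        X.Hon (g • x) (g • y) (g • w)) := by
      rintro ⟨hf, h3, h4⟩
      have hf' := (Fr_smul_iff g).1 hf
      exact h1 ⟨hf', (gr_Hon_smul X g ha hf').1 h3, (gr_Hon_smul X g ha hf').1 h4⟩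
    rw [if_neg h1, if_neg h1']
    by_cases h2 : ¬ EllV X.D X.K x
    · have h2' : ¬ EllV X.D X.K (g • x) := fun h => h2 ((EllV_smul_iff g).1 h)
      rw [if_pos h2, if_pos h2']
      by_cases h3 : FT X.D X.K x u w
      · rw [if_pos h3, if_pos ((gr_FT_smul X hCLU g h2).2 h3), ← gr_cl_smul X hCLU g h2]
        by_cases h4 : X.D.arr u w
        · rw [if_pos h4, if_pos ((gr1_arr_smul X g).2 h4)]
          rfl
        · rw [if_neg h4, if_neg (fun h => h4 ((gr1_arr_smul X g).1 h))]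
          rfl
      · rw [if_neg h3, if_neg (fun h => h3 ((gr_FT_smul X hCLU g h2).1 h))]
        rfl
    · have h2' : ¬ ¬ EllV X.D X.K (g • x) := fun h => h2 (fun h' => h ((EllV_smul_iff g).2 h'))
      rw [if_neg h2, if_neg h2']
      rfl

/-- the axis at a corner side which is not honest -/
theorem grq_ax (hHON : ST_HON) (hTFD : ST_TFD) (hCLU : ST_CLU) {x y z : X.V} {w : X.U}
    (ht : X.K.tri x y z) (h1 : X.P.N y w = X.P.N z w) (h2 : X.P.N y w ≠ w)
    (h3 : X.P.N x w ≠ X.P.N y w) (hx : ¬ EllV X.D X.K x)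
    (hn : ¬ (Fr X.K x y ∧ X.Hon x y w ∧ X.Hon x y (X.P.N y w))) :
    Ax X.P x (X.P.N y w) w := by
  have hc := (gr_band_cross X h1 h2 h3).1
  have ha := (gr_tri_adj3 X ht).1
  refine gr_deep_ax X hHON hTFD hCLU ha hc hx ?_
  by_cases hF : Fr X.K x y
  · right
    have hFC : X.FC2 x y := ⟨ha, hF, gr_Cross_ne X hc⟩
    have hI : OnI (X.P.N x) (X.P.N y) w := fun h => absurd h h3
    rcases ((hHON G X x y hFC).1 w).1 hI with h | h | h
    · exfalso
      exact hn ⟨hF, h, (hHON G X x y hFC).2.2.2.2.2.2.2.2.2.1 z w ht h1 h2 h3 h⟩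
    · exact h
    · exfalso
      have hFC' : X.FC2 y x := ⟨X.K.symm _ _ ha, hF.symm, Ne.symm (gr_Cross_ne X hc)⟩
      have := ((hHON G X y x hFC').2.2.2.2.2.2.2.1 z w (X.K.tri_swap _ _ _ ht) h).1
      exact h3 (by rw [this, h1])
  · exact Or.inl hF

theorem grq_spN_mem (hHON : ST_HON) (hTFD : ST_TFD) (hCLU : ST_CLU) {x y z : X.V} {w : X.U}
    (ht : X.K.tri x y z) (h1 : X.P.N y w = X.P.N z w) (h2 : X.P.N y w ≠ w)
    (h3 : X.P.N x w ≠ X.P.N y w) {n : X.NP} (h : X.spN x y w (X.P.N y w) = some n) :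
    n ∈ X.NQs := by
  classical
  have hc := (gr_band_cross X h1 h2 h3).1
  have ha := (gr_tri_adj3 X ht).1
  unfold Ctx.spN at h
  by_cases c1 : Fr X.K x y ∧ X.Hon x y w ∧ X.Hon x y (X.P.N y w)
  · rw [if_pos c1] at h
    obtain rfl := Option.some.inj h
    exact ⟨⟨ha, c1.1, gr_Cross_ne X hc⟩, hc, c1.2.1, c1.2.2⟩
  · rw [if_neg c1] at h
    by_cases c2 : ¬ EllV X.D X.K x
    · rw [if_pos c2] at h
      have hax := grq_ax X hHON hTFD hCLU ht h1 h2 h3 c2 c1
      by_cases c3 : FT X.D X.K x w (X.P.N y w)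
      · rw [if_pos c3] at h
        by_cases c4 : X.D.arr w (X.P.N y w)
        · rw [if_pos c4] at h
          obtain rfl := Option.some.inj h
          exact ⟨c4, x, rfl, c2, Or.inr hax, c3⟩
        · rw [if_neg c4] at h
          obtain rfl := Option.some.inj h
          exact ⟨((X.D.adj_iff _ _).1 hc.1).resolve_left c4, x, rfl, c2, Or.inl hax,
            gr_FT_symm X c3⟩
      · rw [if_neg c3] at h
        exact absurd h (by simp)
    · rw [if_neg c2] at h
      exact absurd h (by simp)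

theorem grq_sQ_mem (hHON : ST_HON) (hTFD : ST_TFD) (hCLU : ST_CLU) {b : Band G X}
    (hb : b ∈ X.BN) : (∀ n, X.sQ b = some n → n ∈ X.NQs) ∧
      (∀ n, X.tQ b = some n → n ∈ X.NQs) := by
  obtain ⟨h1, h2, h3, h4, _⟩ := hb
  refine ⟨fun n h => grq_spN_mem X hHON hTFD hCLU h1 h2 h3 h4 h, fun n h => ?_⟩
  have h' : X.spN b.x b.z b.w (X.P.N b.z b.w) = some n := by rw [← h2]; exact h
  exact grq_spN_mem X hHON hTFD hCLU (gr_tri_z X h1) h2.symm (by rw [← h2]; exact h3)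
    (by rw [← h2]; exact h4) h'

theorem grq_sQ_smul (hCLU : ST_CLU) (g : G) {b : Band G X} (hb : b ∈ X.BN) :
    X.sQ (g • b) = (X.sQ b).map (g • ·) ∧ X.tQ (g • b) = (X.tQ b).map (g • ·) := by
  have ha := gr_tri_adj3 X hb.1
  obtain ⟨x, y, z, w, o⟩ := b
  have e : X.P.N (g • y) (g • w) = g • X.P.N y w := X.P.eN g y w
  constructor
  · show X.spN (g • x) (g • y) (g • w) (X.P.N (g • y) (g • w)) =
      (X.spN x y w (X.P.N y w)).map (g • ·)
    rw [e]
    exact grq_spN_smul X hCLU g ha.1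
  · show X.spN (g • x) (g • z) (g • w) (X.P.N (g • y) (g • w)) =
      (X.spN x z w (X.P.N y w)).map (g • ·)
    rw [e]
    exact grq_spN_smul X hCLU g ha.2.1

/-- location of a node, unordered -/
def grq_loc (n : X.NP) : Set X.U := {(gr_loc X n).1, (gr_loc X n).2}

theorem grq_loc_smul (g : G) (n : X.NP) : grq_loc X (g • n) = g • grq_loc X n := by
  unfold grq_loc
  rw [gr_loc_smul, Set.smul_set_insert, Set.smul_set_singleton]
  rfl

theorem grq_spN_loc {x y : X.V} {u w : X.U} {n : X.NP} (h : X.spN x y u w = some n) :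
    grq_loc X n = {u, w} := by
  classical
  unfold Ctx.spN at h
  split_ifs at h
  · obtain rfl := Option.some.inj h; rfl
  · obtain rfl := Option.some.inj h; rfl
  · obtain rfl := Option.some.inj h
    exact Set.pair_comm _ _

theorem grq_NQs_sub {n : X.NP} (hn : n ∈ X.NQs) : n ∈ X.NPs := by
  rcases n with ⟨x, y, u, w⟩ | ⟨C, u, w⟩
  · exact hn
  · exact hn.2

theorem grq_NQs_smul (hCLU : ST_CLU) (g : G) {n : X.NP} (hn : n ∈ X.NQs) : g • n ∈ X.NQs := by
  have h := gr_NPs_smul X hCLU g (grq_NQs_sub X hn)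
  rcases n with ⟨x, y, u, w⟩ | ⟨C, u, w⟩
  · exact h
  · exact ⟨X.D.arr_smul g _ _ hn.1, h⟩

theorem grq_noinv (hINF : ST_INF) {u w : X.U} (ha : X.D.T.Adj u w) {g : G}
    (h : g • ({u, w} : Set X.U) = {u, w}) : g • u = u ∧ g • w = w := by
  have hu : g • u ∈ ({u, w} : Set X.U) := by
    rw [← h]; exact Set.smul_mem_smul_set (by simp)
  have hw : g • w ∈ ({u, w} : Set X.U) := by
    rw [← h]; exact Set.smul_mem_smul_set (by simp)
  have hne : g • u ≠ g • w := fun he => ha.ne (smul_left_cancel g he)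
  rcases hu with hu | hu
  · rcases hw with hw | hw
    · exact absurd (hu.trans hw.symm) hne
    · exact ⟨hu, hw⟩
  · rcases hw with hw | hw
    · exact absurd ⟨hu, hw⟩ ((hINF G X.D).2.2.2 g u w ha)
    · exact absurd (Eq.trans hu (Eq.symm hw)) hne

end ctx

theorem st_GRQ (hTFC : ST_TFC) (hTFD : ST_TFD) (hINF : ST_INF) (hCLU : ST_CLU)
    (hHON : ST_HON) : ST_GRQ := by
  intro G _ X
  have hsub : ∀ n ∈ X.NQs, n ∈ X.NPs := fun n hn => grq_NQs_sub X hn
  refine ⟨fun g n hn => grq_NQs_smul X hCLU g hn, fun g b hb => gr1_Y1_smul X g hb,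
    fun g n hn h => gr_NPs_free X g (hsub n hn) h, fun g b hb h => gr_BN_free X g hb.1 h,
    gr_finOrb_mono hsub (gr_NPs_fin X hHON hTFC hCLU),
    gr_finOrb_mono (fun b hb => hb.1) (gr_BN_fin X hHON),
    fun b hb n h => (grq_sQ_mem X hHON hTFD hCLU hb.1).1 n h,
    fun b hb n h => (grq_sQ_mem X hHON hTFD hCLU hb.1).2 n h,
    fun g b hb => (grq_sQ_smul X hCLU g hb.1).1,
    fun g b hb => (grq_sQ_smul X hCLU g hb.1).2, ?_⟩
  refine gr_triv (fun g n hn h => gr_NPs_free X g (hsub n hn) h) (grq_loc X) (grq_loc_smul X)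
    (fun b _ p q h1 h2 => ?_) (fun n hn g hg m hm hgm => ?_)
  · have e1 := grq_spN_loc X (x := b.x) (y := b.y) (u := b.w) (w := X.P.N b.y b.w) h1
    have e2 := grq_spN_loc X (x := b.x) (y := b.z) (u := b.w) (w := X.P.N b.y b.w) h2
    rw [e1, e2]
  · have ha := gr_NPs_adj X (hsub n hn)
    obtain ⟨h1, h2⟩ := grq_noinv X hINF ha hg
    exact gr_edge_tf X hINF ha h1 h2 hm hgm

end Pool.Agent.Helper93.HZ
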