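import Pool.Agent.Helper93.HZ.Spec3

/-!
# Common lemmas for GRP, GR1, GRQ
-/

set_option autoImplicit false

open MulAction Pointwise

namespace Pool.Agent.Helper93.HZ

open Ctx

section orb

variable {G : Type} [Group G] {α : Type} [MulAction G α]

theorem gr_finOrb_of {S : Set α} (F : Set α) (hF : F.Finite)
    (h : ∀ x ∈ S, ∃ g : G, g • x ∈ F) : FinOrb G S := by
  refine (hF.image (fun x => orbit G x)).subset ?_
  rintro _ ⟨x, hx, rfl⟩
  obtain ⟨g, hg⟩ := h x hx
  refine ⟨g • x, hg, ?_⟩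
  show orbit G (g • x) = orbit G x
  rw [orbit_eq_iff]
  exact mem_orbit x g

theorem gr_finOrb_rep {S : Set α} (h : FinOrb G S) :
    ∃ F : Set α, F.Finite ∧ F ⊆ S ∧ ∀ x ∈ S, ∃ g : G, g • x ∈ F := by
  classical
  have hc : ∀ o : ((fun x : α => orbit G x) '' S), ∃ x ∈ S, orbit G x = o := by
    rintro ⟨_, ⟨x, hx, rfl⟩⟩
    exact ⟨x, hx, rfl⟩
  choose f hf using hc
  have hfin : Finite ((fun x : α => orbit G x) '' S) := h
  refine ⟨Set.range f, Set.finite_range f, ?_, ?_⟩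
  · rintro _ ⟨o, rfl⟩
    exact (hf o).1
  · intro x hx
    have h1 := (hf ⟨orbit G x, ⟨x, hx, rfl⟩⟩).2
    rw [orbit_eq_iff] at h1
    obtain ⟨g, hg⟩ := h1
    exact ⟨g, by
      have : g • x = f ⟨orbit G x, ⟨x, hx, rfl⟩⟩ := hg
      rw [this]; exact ⟨_, rfl⟩⟩

end orb

section field

variable {U : Type} {T : SimpleGraph U} {N M : U → U}

theorem gr_back (h : IsField T N) {u w : U} (ha : T.Adj u w) (hne : N u ≠ w) : N w = u := by
  by_contra hc
  exact hne (((h.2 u w ha)).2 hc)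

theorem gr_no (h : IsField T N) {u w : U} (ha : T.Adj u w) (he : N u = w) : N w ≠ u :=
  (h.2 u w ha).1 he

theorem gr_adj (h : IsField T N) {u : U} (hu : N u ≠ u) : T.Adj u (N u) :=
  (h.1 u).resolve_left hu

/-- the axis is preserved -/
theorem gr_ax_step (hN : IsField T N) (hM : IsField T M) (h0 : ∀ u, N u ≠ u) {u : U}
    (hu : N u ≠ M u) : M (N u) = u ∧ N (N u) ≠ M (N u) := by
  have ha := gr_adj hN (h0 u)
  have h1 : M (N u) = u := gr_back hM ha (Ne.symm hu)
  exact ⟨h1, by rw [h1]; exact gr_no hN ha rfl⟩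

theorem gr_ax_iter (hN : IsField T N) (hM : IsField T M) (h0 : ∀ u, N u ≠ u) {u : U}
    (hu : N u ≠ M u) (k : ℕ) : N (N^[k] u) ≠ M (N^[k] u) := by
  induction k with
  | zero => exact hu
  | succ k ih =>
    rw [Function.iterate_succ_apply']
    exact (gr_ax_step hN hM h0 ih).2

theorem gr_ax_cancel (hN : IsField T N) (hM : IsField T M) (h0 : ∀ u, N u ≠ u) {u : U}
    (hu : N u ≠ M u) (k : ℕ) : M^[k] (N^[k] u) = u := by
  induction k with
  | zero => rfl
  | succ k ih =>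
    rw [Function.iterate_succ_apply' N, Function.iterate_succ_apply M,
      (gr_ax_step hN hM h0 (gr_ax_iter hN hM h0 hu k)).1, ih]

end field

section base

variable {G : Type} [Group G] {D : Setup G} {K : Cx G}

theorem gr_Ax_axis (P : Pts D K) {v : K.V} {u w : D.U} (h : Ax P v u w) :
    P.N v u = w ∧ P.N v u ≠ P.M v u ∧ D.T.Adj u w := by
  obtain ⟨h1, h2, h3⟩ := h
  have ha : D.T.Adj u w := by
    have := gr_adj (P.fN v) h3
    rwa [h1] at this
  refine ⟨h1, ?_, ha⟩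
  rw [h1]
  intro h4
  exact gr_no (P.fM v) ha h4.symm h2

/-- edges from an elliptic to a hyperbolic vertex are free -/
theorem gr_fr (hTFD : ST_TFD) (P : Pts D K) {x y : K.V} (hx : ¬ EllV D K x)
    (hy : EllV D K y) : Fr K x y := by
  intro g hgx hgy
  obtain ⟨_, _, ⟨z, k, hz, hinf, _, _⟩, _⟩ := P.hyp x hx
  have hg : g ∈ Subgroup.zpowers z := by
    rw [← hz]; exact hgx
  obtain ⟨n, rfl⟩ := Subgroup.mem_zpowers_iff.1 hg
  obtain ⟨u, hu⟩ := hy
  have h1 : z ^ n • u = u := hu _ hgy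
  by_contra hne
  have hn : n ≠ 0 := by
    rintro rfl
    exact hne (zpow_zero z)
  have h2 : Ell D (z ^ n.natAbs) := by
    refine ⟨u, ?_⟩
    rcases Int.natAbs_eq n with h | h
    · rw [h, zpow_natCast] at h1
      exact h1
    · rw [h, zpow_neg, zpow_natCast, inv_smul_eq_iff] at h1
      exact h1.symm
  obtain ⟨u', hu'⟩ := (hTFD G D z).1 n.natAbs (Int.natAbs_pos.2 hn) h2
  apply hx
  refine ⟨u', fun g hg => ?_⟩
  have hg' : g ∈ Subgroup.zpowers z := by
    rw [← hz]; exact hg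
  have hle : Subgroup.zpowers z ≤ stabilizer G u' := by
    rw [Subgroup.zpowers_le]
    exact hu'
  exact hle hg'

/-- finitely many axis darts modulo the stabilizer -/
theorem gr_axis (hTFC : ST_TFC) (P : Pts D K) {v : K.V} (hv : ¬ EllV D K v) :
    ∃ A : Set (D.U × D.U), A.Finite ∧ ∀ u w, Ax P v u w →
      ∃ g : G, g • v = v ∧ (g • u, g • w) ∈ A := by
  obtain ⟨hN0, hM0, ⟨z, k, hz, hinf, hk, hzk⟩, ⟨u1, hu1⟩⟩ := P.hyp v hv
  have hzv : z • v = v := by
    have : z ∈ stabilizer G v := by rw [hz]; exact Subgroup.mem_zpowers z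
    exact this
  have hax : ∀ i, P.N v ((P.N v)^[i] u1) ≠ P.M v ((P.N v)^[i] u1) :=
    gr_ax_iter (P.fN v) (P.fM v) hN0 hu1
  have hpow : ∀ (n : ℕ) (u : D.U), P.N v u ≠ P.M v u → z ^ n • u = (P.N v)^[n * k] u := by
    intro n
    induction n with
    | zero => intro u _; simp
    | succ n ih =>
      intro u hu
      rw [pow_succ', mul_smul, ih u hu, hzk _ (gr_ax_iter (P.fN v) (P.fM v) hN0 hu _),
        ← Function.iterate_add_apply]
      congr 1
      ring
  have hznv : ∀ n : ℕ, z ^ n • v = v := by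
    intro n
    induction n with
    | zero => simp
    | succ n ih => rw [pow_succ', mul_smul, ih, hzv]
  have key : ∀ j : ℕ, ∃ g : G, g • v = v ∧ ∃ i < k, g • (P.N v)^[j] u1 = (P.N v)^[i] u1 := by
    intro j
    refine ⟨(z ^ (j / k))⁻¹, by rw [inv_smul_eq_iff]; exact (hznv _).symm, j % k,
      Nat.mod_lt _ hk, ?_⟩
    rw [inv_smul_eq_iff, hpow _ _ (hax _), ← Function.iterate_add_apply]
    congr 1
    rw [Nat.mul_comm]
    exact (Nat.div_add_mod j k).symm
  refine ⟨(fun i : ℕ => ((P.N v)^[i] u1, P.N v ((P.N v)^[i] u1))) '' {i | i < k},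
    (Set.finite_lt_nat k).image _, fun u w h => ?_⟩
  obtain ⟨hw, hu, _⟩ := gr_Ax_axis P h
  have hfin : ∀ g : G, g • v = v → ∀ i < k, g • u = (P.N v)^[i] u1 →
      (g • u, g • w) ∈ (fun i : ℕ => ((P.N v)^[i] u1, P.N v ((P.N v)^[i] u1))) '' {i | i < k} := by
    intro g hg i hi he
    refine ⟨i, hi, ?_⟩
    have : g • w = P.N v (g • u) := by
      have := P.eN g v u
      rw [hg, hw] at this
      exact this.symm
    show ((P.N v)^[i] u1, P.N v ((P.N v)^[i] u1)) = (g • u, g • w)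
    rw [this, he]
  obtain ⟨j, hj⟩ := (hTFC D.U D.T D.tree (P.N v) (P.M v) (P.fN v) (P.fM v)).1 u1 u
    (fun h => absurd h hu1) (fun h => absurd h hu)
  rcases hj with hj | hj
  · obtain ⟨g, hg, i, hi, he⟩ := key j
    rw [← hj] at he
    exact ⟨g, hg, hfin g hg i hi he⟩
  · have h1 : (P.N v)^[j] u = u1 := by
      rw [hj]
      exact gr_ax_cancel (P.fM v) (P.fN v) hM0 (Ne.symm hu1) j
    have h2 : z ^ j • u = (P.N v)^[j * k - j] u1 := by
      rw [hpow j u hu, ← h1, ← Function.iterate_add_apply]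
      congr 1
      have : j ≤ j * k := Nat.le_mul_of_pos_right j hk
      omega
    obtain ⟨g, hg, i, hi, he⟩ := key (j * k - j)
    refine ⟨g * z ^ j, by rw [mul_smul, hznv, hg], hfin _ (by rw [mul_smul, hznv, hg]) i hi ?_⟩
    rw [mul_smul, h2, he]

end base

end Pool.Agent.Helper93.HZ
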