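import Pool.Agent.Helper64.HZ.GrLib

/-!
# Common lemmas for GRP, GR1, GRQ, part 2
-/

set_option autoImplicit false

open MulAction Pointwise

namespace Pool.Agent.Helper93.HZ

open Ctx

section triv

variable {G : Type} [Group G] {A Y L : Type} [MulAction G A] [MulAction G L]

theorem gr_loc_const {NY : Set Y} {s t : Y → Option A} (loc : A → L)
    (hst : ∀ y ∈ NY, ∀ p q, s y = some p → t y = some q → loc p = loc q) {p q : A}
    (h : q ∈ compR NY s t p) : loc q = loc p := by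
  have h' : Relation.ReflTransGen (stepR NY s t) p q := h
  induction h' with
  | refl => rfl
  | tail hb hc ih =>
    obtain ⟨y, hy, ⟨h1, h2⟩ | ⟨h1, h2⟩⟩ := hc
    · rw [← ih hb]; exact (hst y hy _ _ h1 h2).symm
    · rw [← ih hb]; exact hst y hy _ _ h1 h2

theorem gr_triv {NY : Set Y} {s t : Y → Option A} {NX : Set A}
    (hfree : ∀ (g : G), ∀ x ∈ NX, g • x = x → g = 1) (loc : A → L)
    (hloc : ∀ (g : G) (n : A), loc (g • n) = g • loc n)
    (hst : ∀ y ∈ NY, ∀ p q, s y = some p → t y = some q → loc p = loc q)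
    (htf : ∀ n ∈ NX, ∀ g : G, g • loc n = loc n → ∀ m : ℕ, 0 < m → g ^ m = 1 → g = 1) :
    ∀ p ∈ NX, goodR NY s t p → ∀ g : G, g • compR NY s t p = compR NY s t p → g = 1 := by
  intro p hp hgood g hg
  have hpow : ∀ m : ℕ, g ^ m • compR NY s t p = compR NY s t p := by
    intro m
    induction m with
    | zero => simp
    | succ m ih => rw [pow_succ', mul_smul, ih, hg]
  have hmem : ∀ m : ℕ, g ^ m • p ∈ compR NY s t p := by
    intro m
    rw [← hpow m]
    exact Set.smul_mem_smul_set (Relation.ReflTransGen.refl)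
  have hl : g • loc p = loc p := by
    rw [← hloc]
    have := gr_loc_const loc hst (hmem 1)
    rwa [pow_one] at this
  have hni : ¬ Function.Injective (fun m : ℕ => g ^ m • p) := by
    intro hi
    have : (Set.range (fun m : ℕ => g ^ m • p)).Infinite := Set.infinite_range_of_injective hi
    exact this (hgood.1.subset (by rintro _ ⟨m, rfl⟩; exact hmem m))
  have hex : ∃ m : ℕ, 0 < m ∧ g ^ m • p = p := by
    rw [Function.Injective] at hni
    push Not at hni
    obtain ⟨a, b, hab, hne⟩ := hni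
    have hab' : g ^ a • p = g ^ b • p := hab
    have aux : ∀ a b : ℕ, a < b → g ^ a • p = g ^ b • p → ∃ m : ℕ, 0 < m ∧ g ^ m • p = p := by
      intro a b hlt h
      refine ⟨b - a, by omega, ?_⟩
      have h1 : g ^ b = g ^ a * g ^ (b - a) := by
        rw [← pow_add]; congr 1; omega
      rw [h1, mul_smul] at h
      exact (smul_left_cancel _ h).symm
    rcases lt_or_gt_of_ne hne with h | h
    · exact aux a b h hab'
    · exact aux b a h hab'.symm
  obtain ⟨m, hm, he⟩ := hex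
  exact htf p hp g hl m hm (hfree _ p hp he)

end triv

theorem gr_zpow {G : Type} [Group G] {z : G} (hz : ¬ IsOfFinOrder z) {g : G}
    (hg : g ∈ Subgroup.zpowers z) {m : ℕ} (hm : 0 < m) (h : g ^ m = 1) : g = 1 := by
  obtain ⟨n, rfl⟩ := Subgroup.mem_zpowers_iff.1 hg
  have h1 : z ^ (n * m) = 1 := by rw [zpow_mul, zpow_natCast]; exact h
  by_contra hne
  have hn : n ≠ 0 := by
    rintro rfl
    exact hne (zpow_zero z)
  apply hz
  rw [isOfFinOrder_iff_zpow_eq_one]
  exact ⟨n * m, mul_ne_zero hn (by exact_mod_cast hm.ne'), h1⟩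

section ctx

variable {G : Type} [Group G] (X : Ctx G)

theorem gr_Hon_smul (g : G) {x y : X.V} {u : X.U} (ha : X.K.adj x y) (hf : Fr X.K x y) :
    X.Hon (g • x) (g • y) (g • u) ↔ X.Hon x y u := by
  unfold Ctx.Hon
  rw [X.Q.eq g x y ha hf, X.Q.eq g y x (X.K.symm _ _ ha) hf.symm]
  simp only [X.P.N_iter, smul_left_cancel_iff]

theorem gr_Dp_smul (g : G) {x y : X.V} {u : X.U} (ha : X.K.adj x y) (hf : Fr X.K x y) :
    X.Dp (g • x) (g • y) (g • u) ↔ X.Dp x y u := by
  unfold Ctx.Dp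
  rw [X.Q.eq g x y ha hf, EllV_smul_iff g]
  simp only [X.P.N_iter, smul_left_cancel_iff]

theorem gr_Cross_smul (g : G) {x y : X.V} {u w : X.U} (h : Cross X.P x y u w) :
    Cross X.P (g • x) (g • y) (g • u) (g • w) := by
  obtain ⟨h1, h2, h3⟩ := h
  exact ⟨Tadj_smul g h1, by rw [X.P.eN, h2], by rw [X.P.eN, h3]⟩

theorem gr_Cross_ne {x y : X.V} {u w : X.U} (h : Cross X.P x y u w) : X.P.N x ≠ X.P.N y := by
  obtain ⟨h1, h2, h3⟩ := h
  intro he
  rw [he] at h2
  exact gr_no (X.P.fN y) h1 h3 h2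

theorem gr_FC2_smul (g : G) {x y : X.V} (h : X.FC2 x y) : X.FC2 (g • x) (g • y) :=
  ⟨X.K.smul_adj g _ _ h.1, Fr_smul g h.2.1, fun he => h.2.2 ((X.P.N_eq_smul g).1 he)⟩

theorem gr_cl_smul (hCLU : ST_CLU) (g : G) {v : X.V} (hv : ¬ EllV X.D X.K v) :
    g • cl X.D X.K v = cl X.D X.K (g • v) :=
  (hCLU G X.D X.K X.P X.nd v v hv Relation.ReflTransGen.refl).2.2.2.2.2 g

theorem gr_FT_smul1 (hCLU : ST_CLU) (g : G) {v : X.V} {u w : X.U} (hv : ¬ EllV X.D X.K v)
    (h : FT X.D X.K v u w) : FT X.D X.K (g • v) (g • u) (g • w) := by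
  intro k h1 h2 h3
  rw [← gr_cl_smul X hCLU g hv] at h1
  have e1 : (g⁻¹ * k * g) • cl X.D X.K v = cl X.D X.K v := by
    rw [mul_smul, mul_smul, h1, inv_smul_smul]
  have e2 : (g⁻¹ * k * g) • u = u := by
    rw [mul_smul, mul_smul, h2, inv_smul_smul]
  have e3 : (g⁻¹ * k * g) • w = w := by
    rw [mul_smul, mul_smul, h3, inv_smul_smul]
  have := h _ e1 e2 e3
  have h5 : k = g * (g⁻¹ * k * g) * g⁻¹ := by group
  rw [h5, this]; group

theorem gr_FT_smul (hCLU : ST_CLU) (g : G) {v : X.V} {u w : X.U} (hv : ¬ EllV X.D X.K v) :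
    FT X.D X.K (g • v) (g • u) (g • w) ↔ FT X.D X.K v u w := by
  constructor
  · intro h
    have := gr_FT_smul1 X hCLU g⁻¹ (fun he => hv ((EllV_smul_iff g).1 he)) h
    simpa using this
  · exact gr_FT_smul1 X hCLU g hv

theorem gr_Ax2_smul (g : G) {v : X.V} {u w : X.U} (h : Ax2 X.P v u w) :
    Ax2 X.P (g • v) (g • u) (g • w) := by
  rcases h with h | h
  · exact Or.inl (Ax_smul X.P g h)
  · exact Or.inr (Ax_smul X.P g h)

theorem gr_Ax2_adj {v : X.V} {u w : X.U} (h : Ax2 X.P v u w) : X.D.T.Adj u w := by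
  rcases h with h | h
  · exact (gr_Ax_axis X.P h).2.2
  · exact (gr_Ax_axis X.P h).2.2.symm

theorem gr_FT_symm {v : X.V} {u w : X.U} (h : FT X.D X.K v u w) : FT X.D X.K v w u :=
  fun g h1 h2 h3 => h g h1 h3 h2

/-- in the third branch of `ptN` the edge is free -/
theorem gr_third (hTFD : ST_TFD) {x y : X.V} {p : Prop}
    (h2 : ¬ (¬ EllV X.D X.K x ∧ (¬ Fr X.K x y ∨ p))) (hy : ¬ EllV X.D X.K y) : Fr X.K x y := by
  by_contra hF
  have hE : EllV X.D X.K x := by
    by_contra hE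
    exact h2 ⟨hE, Or.inl hF⟩
  exact hF (gr_fr hTFD X.P hy hE).symm

theorem gr_ptN_smul (hTFD : ST_TFD) (hCLU : ST_CLU) (g : G) {x y : X.V} {u w : X.U}
    (ha : X.K.adj x y) :
    X.ptN (g • x) (g • y) (g • u) (g • w) = (X.ptN x y u w).map (g • ·) := by
  classical
  unfold Ctx.ptN
  have ha' := X.K.symm _ _ ha
  by_cases h1 : Fr X.K x y ∧ X.Hon x y u ∧ X.Hon x y w
  · have h1' : Fr X.K (g • x) (g • y) ∧ X.Hon (g • x) (g • y) (g • u) ∧
        X.Hon (g • x) (g • y) (g • w) :=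
      ⟨Fr_smul g h1.1, (gr_Hon_smul X g ha h1.1).2 h1.2.1, (gr_Hon_smul X g ha h1.1).2 h1.2.2⟩
    rw [if_pos h1, if_pos h1']
    rfl
  · have h1' : ¬ (Fr X.K (g • x) (g • y) ∧ X.Hon (g • x) (g • y) (g • u) ∧
        X.Hon (g • x) (g • y) (g • w)) := by
      rintro ⟨hf, h3, h4⟩
      have hf' := (Fr_smul_iff g).1 hf
      exact h1 ⟨hf', (gr_Hon_smul X g ha hf').1 h3, (gr_Hon_smul X g ha hf').1 h4⟩
    rw [if_neg h1, if_neg h1']
    have e2 : (¬ EllV X.D X.K (g • x) ∧ (¬ Fr X.K (g • x) (g • y) ∨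
        X.Dp (g • x) (g • y) (g • u))) ↔
        (¬ EllV X.D X.K x ∧ (¬ Fr X.K x y ∨ X.Dp x y u)) := by
      rw [EllV_smul_iff g, Fr_smul_iff g]
      by_cases hF : Fr X.K x y
      · rw [gr_Dp_smul X g ha hF]
      · simp [hF]
    by_cases h2 : ¬ EllV X.D X.K x ∧ (¬ Fr X.K x y ∨ X.Dp x y u)
    · rw [if_pos h2, if_pos (e2.2 h2)]
      by_cases h3 : FT X.D X.K x u w
      · rw [if_pos h3, if_pos ((gr_FT_smul X hCLU g h2.1).2 h3), ← gr_cl_smul X hCLU g h2.1]
        rfl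
      · rw [if_neg h3, if_neg (fun h => h3 ((gr_FT_smul X hCLU g h2.1).1 h))]
        rfl
    · rw [if_neg h2, if_neg (fun h => h2 (e2.1 h))]
      by_cases h4 : ¬ EllV X.D X.K y ∧ X.Dp y x w
      · have hF := gr_third X hTFD h2 h4.1
        have h4' : ¬ EllV X.D X.K (g • y) ∧ X.Dp (g • y) (g • x) (g • w) :=
          ⟨fun h => h4.1 ((EllV_smul_iff g).1 h), (gr_Dp_smul X g ha' hF.symm).2 h4.2⟩
        rw [if_pos h4, if_pos h4']
        by_cases h3 : FT X.D X.K y u w
        · rw [if_pos h3, if_pos ((gr_FT_smul X hCLU g h4.1).2 h3), ← gr_cl_smul X hCLU g h4.1]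
          rfl
        · rw [if_neg h3, if_neg (fun h => h3 ((gr_FT_smul X hCLU g h4.1).1 h))]
          rfl
      · have h4' : ¬ (¬ EllV X.D X.K (g • y) ∧ X.Dp (g • y) (g • x) (g • w)) := by
          rintro ⟨h5, h6⟩
          have h5' : ¬ EllV X.D X.K y := fun h => h5 ((EllV_smul_iff g).2 h)
          have hF := gr_third X hTFD h2 h5'
          exact h4 ⟨h5', (gr_Dp_smul X g ha' hF.symm).1 h6⟩
        rw [if_neg h4, if_neg h4']
        rfl

/-- deep or not free at a hyperbolic vertex: on the axis -/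
theorem gr_deep_ax (hHON : ST_HON) (hTFD : ST_TFD) (hCLU : ST_CLU) {x y : X.V} {u w : X.U}
    (ha : X.K.adj x y) (hc : Cross X.P x y u w) (hx : ¬ EllV X.D X.K x)
    (h : ¬ Fr X.K x y ∨ X.Dp x y u) : Ax X.P x w u := by
  have hM : X.P.M x u = w := by
    by_cases hF : Fr X.K x y
    · have hd := h.resolve_left (fun h => h hF)
      have := ((hHON G X x y ⟨ha, hF, gr_Cross_ne X hc⟩).2.2.2.2.2.2.2.2.1 u hd).2
      rw [← this]
      exact hc.2.2
    · have hy : ¬ EllV X.D X.K y := fun hy => hF (gr_fr hTFD X.P hx hy)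
      have hTF : TF X.D X.K x y := ⟨ha, hx, hy, hF⟩
      have := ((hCLU G X.D X.K X.P X.nd x y hx (Relation.ReflTransGen.single hTF)).2.2.2.1
        hTF).1
      rw [← this]
      exact hc.2.2
  exact ⟨hc.2.1, hM, by rw [hc.2.1]; exact hc.1.ne⟩

theorem gr_ptN_mem (hHON : ST_HON) (hTFD : ST_TFD) (hCLU : ST_CLU) {x y : X.V} {u w : X.U}
    (ha : X.K.adj x y) (hc : Cross X.P x y u w) {n : X.NP} (h : X.ptN x y u w = some n) :
    n ∈ X.NPs := by
  classical
  unfold Ctx.ptN at h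
  by_cases h1 : Fr X.K x y ∧ X.Hon x y u ∧ X.Hon x y w
  · rw [if_pos h1] at h
    obtain rfl := Option.some.inj h
    exact ⟨⟨ha, h1.1, gr_Cross_ne X hc⟩, hc, h1.2.1, h1.2.2⟩
  · rw [if_neg h1] at h
    by_cases h2 : ¬ EllV X.D X.K x ∧ (¬ Fr X.K x y ∨ X.Dp x y u)
    · rw [if_pos h2] at h
      by_cases h3 : FT X.D X.K x u w
      · rw [if_pos h3] at h
        obtain rfl := Option.some.inj h
        exact ⟨x, rfl, h2.1, Or.inr (gr_deep_ax X hHON hTFD hCLU ha hc h2.1 h2.2), h3⟩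
      · rw [if_neg h3] at h
        exact absurd h (by simp)
    · rw [if_neg h2] at h
      by_cases h4 : ¬ EllV X.D X.K y ∧ X.Dp y x w
      · rw [if_pos h4] at h
        by_cases h3 : FT X.D X.K y u w
        · rw [if_pos h3] at h
          obtain rfl := Option.some.inj h
          exact ⟨y, rfl, h4.1, Or.inl (gr_deep_ax X hHON hTFD hCLU (X.K.symm _ _ ha)
            ⟨hc.1.symm, hc.2.2, hc.2.1⟩ h4.1 (Or.inr h4.2)), h3⟩
        · rw [if_neg h3] at h
          exact absurd h (by simp)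
      · rw [if_neg h4] at h
        exact absurd h (by simp)

/-- the location of a node -/
def gr_loc : X.NP → X.U × X.U
  | .inl (_, _, u, w) => (u, w)
  | .inr (_, u, w) => (u, w)

theorem gr_loc_smul (g : G) (n : X.NP) : gr_loc X (g • n) = g • gr_loc X n := by
  rcases n with ⟨x, y, u, w⟩ | ⟨C, u, w⟩
  · rfl
  · rfl

theorem gr_ptN_loc {x y : X.V} {u w : X.U} {n : X.NP} (h : X.ptN x y u w = some n) :
    gr_loc X n = (u, w) := by
  classical
  unfold Ctx.ptN at h
  split_ifs at h <;> first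
    | (obtain rfl := Option.some.inj h; rfl)
    | exact absurd h (by simp)

end ctx

end Pool.Agent.Helper93.HZ
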