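import Pool.Agent.Helper64.HZ.GrLib2

/-!
# Common lemmas for GRP, GR1, GRQ, part 3: bands, finiteness
-/

set_option autoImplicit false

open MulAction Pointwise

namespace Pool.Agent.Helper93.HZ

open Ctx

section ctx

variable {G : Type} [Group G] (X : Ctx G)

theorem gr_band_cross {x y z : X.V} {w : X.U}
    (h1 : X.P.N y w = X.P.N z w) (h2 : X.P.N y w ≠ w) (h3 : X.P.N x w ≠ X.P.N y w) :
    Cross X.P x y w (X.P.N y w) ∧ Cross X.P x z w (X.P.N y w) := by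
  have ha := gr_adj (X.P.fN y) h2
  have hb : X.P.N x (X.P.N y w) = w := gr_back (X.P.fN x) ha h3
  exact ⟨⟨ha, hb, rfl⟩, ⟨ha, hb, h1.symm⟩⟩

theorem gr_BN_cross {b : Band G X} (hb : b ∈ X.BN) :
    Cross X.P b.x b.y b.w (X.P.N b.y b.w) ∧ Cross X.P b.x b.z b.w (X.P.N b.y b.w) :=
  gr_band_cross X hb.2.1 hb.2.2.1 hb.2.2.2.1

theorem gr_cross_symm {x y : X.V} {u w : X.U} (h : Cross X.P x y u w) :
    Cross X.P y x w u := ⟨h.1.symm, h.2.2, h.2.1⟩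

theorem gr_tri_adj3 {x y z : X.V} (h : X.K.tri x y z) :
    X.K.adj x y ∧ X.K.adj x z ∧ X.K.adj y z := by
  have h1 := X.K.tri_adj _ _ _ h
  have h2 := X.K.tri_adj _ _ _ (X.K.tri_rot _ _ _ h)
  have h3 := X.K.tri_adj _ _ _ (X.K.tri_rot _ _ _ (X.K.tri_rot _ _ _ h))
  exact ⟨h1, X.K.symm _ _ h3, h2⟩

theorem gr_tri_z {x y z : X.V} (h : X.K.tri x y z) : X.K.tri x z y :=
  X.K.tri_rot _ _ _ (X.K.tri_swap _ _ _ h)

theorem gr_BN_smul (g : G) {b : Band G X} (hb : b ∈ X.BN) : g • b ∈ X.BN := by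
  obtain ⟨h1, h2, h3, h4, h5⟩ := hb
  have ha := gr_tri_adj3 X h1
  refine ⟨X.K.smul_tri g _ _ _ h1, ?_, ?_, ?_, ?_⟩
  · show X.P.N (g • b.y) (g • b.w) = X.P.N (g • b.z) (g • b.w)
    rw [X.P.eN, X.P.eN, h2]
  · show X.P.N (g • b.y) (g • b.w) ≠ g • b.w
    rw [X.P.eN]
    exact fun h => h3 (smul_left_cancel g h)
  · show X.P.N (g • b.x) (g • b.w) ≠ X.P.N (g • b.y) (g • b.w)
    rw [X.P.eN, X.P.eN]
    exact fun h => h4 (smul_left_cancel g h)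
  · rcases h5 with h5 | h5
    · exact Or.inl ⟨Fr_smul g h5.1, (gr_Hon_smul X g ha.1 h5.1).2 h5.2⟩
    · exact Or.inr ⟨Fr_smul g h5.1, (gr_Hon_smul X g ha.2.1 h5.1).2 h5.2⟩

theorem gr_BN_free (g : G) {b : Band G X} (hb : b ∈ X.BN) (h : g • b = b) : g = 1 := by
  have hx : g • b.x = b.x := congrArg Band.x h
  have hy : g • b.y = b.y := congrArg Band.y h
  have hz : g • b.z = b.z := congrArg Band.z h
  rcases hb.2.2.2.2 with h5 | h5
  · exact h5.1 g hx hy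
  · exact h5.1 g hx hz

/-- finiteness of the set of honest vertices -/
theorem gr_Hon_finite (hHON : ST_HON) (x y : X.V) :
    {u : X.U | X.FC2 x y ∧ X.Hon x y u}.Finite := by
  by_cases h : X.FC2 x y
  · exact ((hHON G X x y h).2.2.2.2.2.1).subset (fun u hu => hu.2)
  · have h0 : {u : X.U | X.FC2 x y ∧ X.Hon x y u} = ∅ := by
      ext u
      simp [h]
    rw [h0]
    exact Set.finite_empty

theorem gr_BN_fin (hHON : ST_HON) : FinOrb G X.BN := by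
  obtain ⟨F, hF, hFS, hrep⟩ := gr_finOrb_rep X.K.finT
  have hsf : ∀ s ∈ F, s.Finite := by
    intro s hs
    obtain ⟨x, y, z, _, rfl⟩ := hFS hs
    exact Set.toFinite _
  let T3 : Set (X.V × X.V × X.V) := ⋃ s ∈ F, s ×ˢ (s ×ˢ s)
  have hT3 : T3.Finite := hF.biUnion (fun s hs =>
    (hsf s hs).prod ((hsf s hs).prod (hsf s hs)))
  let W : X.V → X.V → Set X.U := fun x y => {u : X.U | X.FC2 x y ∧ X.Hon x y u}
  let FY : Set (Band G X) := ⋃ t ∈ T3, (fun p : X.U × Bool =>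
    (⟨t.1, t.2.1, t.2.2, p.1, p.2⟩ : Band G X)) ''
      ((W t.1 t.2.1 ∪ W t.1 t.2.2) ×ˢ (Set.univ : Set Bool))
  have hFY : FY.Finite := hT3.biUnion (fun t _ => Set.Finite.image _
    (((gr_Hon_finite X hHON _ _).union (gr_Hon_finite X hHON _ _)).prod Set.finite_univ))
  refine gr_finOrb_of FY hFY (fun b hb => ?_)
  obtain ⟨g, hg⟩ := hrep {b.x, b.y, b.z} ⟨b.x, b.y, b.z, hb.1, rfl⟩
  refine ⟨g, ?_⟩
  have hb' := gr_BN_smul X g hb
  have hc := gr_BN_cross X hb'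
  have ha := gr_tri_adj3 X hb'.1
  have hin : ∀ v ∈ ({b.x, b.y, b.z} : Set X.V), g • v ∈ g • ({b.x, b.y, b.z} : Set X.V) :=
    fun v hv => Set.smul_mem_smul_set hv
  refine Set.mem_biUnion (x := (g • b.x, g • b.y, g • b.z)) ?_ ?_
  · exact Set.mem_biUnion hg ⟨hin _ (by simp), hin _ (by simp), hin _ (by simp)⟩
  · refine ⟨(g • b.w, b.o), ⟨?_, Set.mem_univ _⟩, rfl⟩
    rcases hb'.2.2.2.2 with h5 | h5
    · exact Or.inl ⟨⟨ha.1, h5.1, gr_Cross_ne X hc.1⟩, h5.2⟩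
    · exact Or.inr ⟨⟨ha.2.1, h5.1, gr_Cross_ne X hc.2⟩, h5.2⟩

theorem gr_finOrb_mono {α : Type} [MulAction G α] {S S' : Set α} (h : S ⊆ S')
    (h' : FinOrb G S') : FinOrb G S :=
  Set.Finite.subset h' (Set.image_mono h)

/-- the nodes, all directions of the cluster nodes -/
theorem gr_NPs_fin (hHON : ST_HON) (hTFC : ST_TFC) (hCLU : ST_CLU) : FinOrb G X.NPs := by
  classical
  obtain ⟨F, hF, hFS, hrep⟩ := gr_finOrb_rep X.K.finE
  let W : X.V → X.V → Set X.U := fun x y => {u : X.U | X.FC2 x y ∧ X.Hon x y u}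
  have hW : ∀ x y, (W x y).Finite := gr_Hon_finite X hHON
  have hA : ∀ v : X.V, ∃ A : Set (X.U × X.U), A.Finite ∧ (¬ EllV X.D X.K v →
      ∀ u w, Ax X.P v u w → ∃ g : G, g • v = v ∧ (g • u, g • w) ∈ A) := by
    intro v
    by_cases hv : EllV X.D X.K v
    · exact ⟨∅, Set.finite_empty, fun h => absurd hv h⟩
    · obtain ⟨A, h1, h2⟩ := gr_axis hTFC X.P hv
      exact ⟨A, h1, fun _ => h2⟩
  choose A hAf hA using hA
  let F1 : Set X.NP := ⋃ t ∈ F, (fun p : X.U × X.U => (Sum.inl (t.1, t.2, p.1, p.2) : X.NP)) ''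
    (W t.1 t.2 ×ˢ W t.1 t.2)
  let F2 : Set X.NP := ⋃ t ∈ F,
    (fun p : X.U × X.U => (Sum.inr (cl X.D X.K t.1, p.1, p.2) : X.NP)) '' (A t.1) ∪
    (fun p : X.U × X.U => (Sum.inr (cl X.D X.K t.1, p.2, p.1) : X.NP)) '' (A t.1)
  have hF1 : F1.Finite := hF.biUnion (fun t _ => Set.Finite.image _ ((hW _ _).prod (hW _ _)))
  have hF2 : F2.Finite := hF.biUnion (fun t _ => ((hAf _).image _).union ((hAf _).image _))
  refine gr_finOrb_of (F1 ∪ F2) (hF1.union hF2) ?_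
  rintro (⟨x, y, u, w⟩ | ⟨C, u, w⟩) hn
  · obtain ⟨hFC, hc, h1, h2⟩ := hn
    obtain ⟨g, hg⟩ := hrep (x, y) hFC.1
    refine ⟨g, Or.inl ?_⟩
    have hFC' := gr_FC2_smul X g hFC
    refine Set.mem_biUnion hg ⟨(g • u, g • w), ⟨⟨hFC', ?_⟩, ⟨hFC', ?_⟩⟩, rfl⟩
    · exact (gr_Hon_smul X g hFC.1 hFC.2.1).2 h1
    · exact (gr_Hon_smul X g hFC.1 hFC.2.1).2 h2
  · obtain ⟨v, hC, hv, hax, -⟩ := hn
    obtain ⟨y, hy⟩ := X.K.nbr v
    obtain ⟨g, hg⟩ := hrep (v, y) hy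
    have hv' : ¬ EllV X.D X.K (g • v) := fun h => hv ((EllV_smul_iff g).1 h)
    rcases hax with hax | hax
    · obtain ⟨g2, h1, h2⟩ := hA (g • v) hv' _ _ (Ax_smul X.P g hax)
      refine ⟨g2 * g, Or.inr (Set.mem_biUnion hg (Or.inl ⟨_, h2, ?_⟩))⟩
      show (Sum.inr (cl X.D X.K (g • v), g2 • g • u, g2 • g • w) : X.NP) =
        Sum.inr ((g2 * g) • C, (g2 * g) • u, (g2 * g) • w)
      rw [hC, gr_cl_smul X hCLU (g2 * g) hv, mul_smul, mul_smul, mul_smul, h1]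
    · obtain ⟨g2, h1, h2⟩ := hA (g • v) hv' _ _ (Ax_smul X.P g hax)
      refine ⟨g2 * g, Or.inr (Set.mem_biUnion hg (Or.inr ⟨_, h2, ?_⟩))⟩
      show (Sum.inr (cl X.D X.K (g • v), g2 • g • u, g2 • g • w) : X.NP) =
        Sum.inr ((g2 * g) • C, (g2 * g) • u, (g2 * g) • w)
      rw [hC, gr_cl_smul X hCLU (g2 * g) hv, mul_smul, mul_smul, mul_smul, h1]

theorem gr_NPs_smul (hCLU : ST_CLU) (g : G) {n : X.NP} (hn : n ∈ X.NPs) : g • n ∈ X.NPs := by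
  rcases n with ⟨x, y, u, w⟩ | ⟨C, u, w⟩
  · obtain ⟨hFC, hc, h1, h2⟩ := hn
    exact ⟨gr_FC2_smul X g hFC, gr_Cross_smul X g hc, (gr_Hon_smul X g hFC.1 hFC.2.1).2 h1,
      (gr_Hon_smul X g hFC.1 hFC.2.1).2 h2⟩
  · obtain ⟨v, hC, hv, hax, hFT⟩ := hn
    refine ⟨g • v, ?_, fun h => hv ((EllV_smul_iff g).1 h), gr_Ax2_smul X g hax,
      gr_FT_smul1 X hCLU g hv hFT⟩
    rw [← gr_cl_smul X hCLU g hv, hC]

theorem gr_NPs_free (g : G) {n : X.NP} (hn : n ∈ X.NPs) (h : g • n = n) : g = 1 := by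
  rcases n with ⟨x, y, u, w⟩ | ⟨C, u, w⟩
  · have h1 : (g • x, g • y, g • u, g • w) = (x, y, u, w) := Sum.inl.inj h
    rw [Prod.mk.injEq, Prod.mk.injEq] at h1
    exact hn.1.2.1 g h1.1 h1.2.1
  · have h1 : (g • C, g • u, g • w) = (C, u, w) := Sum.inr.inj h
    rw [Prod.mk.injEq, Prod.mk.injEq] at h1
    obtain ⟨v, hC, hv, hax, hFT⟩ := hn
    exact hFT g (by rw [← hC]; exact h1.1) h1.2.1 h1.2.2

theorem gr_NPs_adj {n : X.NP} (hn : n ∈ X.NPs) :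
    X.D.T.Adj (gr_loc X n).1 (gr_loc X n).2 := by
  rcases n with ⟨x, y, u, w⟩ | ⟨C, u, w⟩
  · exact hn.2.1.1
  · obtain ⟨v, _, _, hax, _⟩ := hn
    exact gr_Ax2_adj X hax

/-- torsion free edge stabilizers -/
theorem gr_edge_tf (hINF : ST_INF) {u w : X.U} (ha : X.D.T.Adj u w) {g : G}
    (h1 : g • u = u) (h2 : g • w = w) {m : ℕ} (hm : 0 < m) (h : g ^ m = 1) : g = 1 := by
  obtain ⟨z, hz, hs⟩ := (hINF G X.D).2.1 u w ha
  have hg : g ∈ Subgroup.zpowers z := by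
    rw [← hs]
    exact ⟨h1, h2⟩
  exact gr_zpow hz hg hm h

end ctx

end Pool.Agent.Helper93.HZ
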